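import Pool.Agent.Helper27_PPZ.TsxA

/-!
# Squad PPZ, module TSX: the functions `T` and `S`
-/

set_option autoImplicit false

universe u

namespace Pool.Agent.PPZ.H27

open MvPolynomial PGH PPX Pool.Agent.PPZ

section places

variable {k E : Type u} [Field k] [IsAlgClosed k] [CharZero k] [Field E] [Algebra k E] [FF k E]

/-- height of a quotient of two functions with common bound for the poles -/
theorem ht_div_le (e : Fin 4 → E) (d₁ d₂ M : ℕ) (y w : E) (hw : w ≠ 0)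
    (hy' : ∀ P : Place k E, P.Ge (-(d₁ * max 0 (-P.ord (e 0)) + d₂ * max 0 (-P.ord (e 1)) +
      M * (max 0 (-P.ord (e 2)) + max 0 (-P.ord (e 3))))) y)
    (hw' : ∀ P : Place k E, P.Ge (-(d₁ * max 0 (-P.ord (e 0)) + d₂ * max 0 (-P.ord (e 1)) +
      M * (max 0 (-P.ord (e 2)) + max 0 (-P.ord (e 3))))) w) :
    ht k (y / w) ≤ d₁ * ht k (e 0) + d₂ * ht k (e 1) + M * (ht k (e 2) + ht k (e 3)) := by
  classical
  by_cases hu0 : y = 0
  · rw [hu0, zero_div]
    have h0 : ht k (0 : E) = 0 := by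
      have := ht_const (L := k) (E := E) (0 : k)
      rwa [map_zero] at this
    rw [h0]
    exact Nat.zero_le _
  obtain ⟨s, hs⟩ : ∃ s : Finset (Place k E), ∀ P ∉ s, P.ord y = 0 ∧ P.ord w = 0 := by
    refine ⟨(finite_support (L := k) y).toFinset ∪ (finite_support (L := k) w).toFinset, ?_⟩
    intro P hP
    simp only [Finset.mem_union, Set.Finite.mem_toFinset, Set.mem_ofPred_eq, not_or, not_not] at hP
    exact hP
  have hy : ∀ P : Place k E, P.ord (y / w) = P.ord y - P.ord w := fun P => P.ord_div hu0 hw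
  have h1 : ∑ P ∈ s, max 0 (-P.ord (y / w)) = (ht k (y / w) : ℤ) :=
    sum_poles_eq (y / w) s (fun P hP => by rw [hy, (hs P hP).1, (hs P hP).2, sub_zero])
  have h2 : ∀ P ∈ s, max 0 (-P.ord (y / w)) ≤ P.ord w + (d₁ * max 0 (-P.ord (e 0)) +
      d₂ * max 0 (-P.ord (e 1)) + M * (max 0 (-P.ord (e 2)) + max 0 (-P.ord (e 3)))) := by
    intro P _
    have a := hy' P
    rw [P.ge_iff hu0] at a
    have b := hw' P
    rw [P.ge_iff hw] at b
    rw [hy]
    exact max_le (by linarith) (by linarith)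
  have h3 : ∑ P ∈ s, P.ord w = 0 := sum_ord_eq_zero w s (fun P hP => (hs P hP).2)
  have h4 : ∀ v : E, ∑ P ∈ s, max 0 (-P.ord v) ≤ (ht k v : ℤ) := fun v => sum_poles_le v s
  have h5 : (ht k (y / w) : ℤ) ≤ d₁ * ht k (e 0) + d₂ * ht k (e 1) +
      M * (ht k (e 2) + ht k (e 3)) := by
    rw [← h1]
    refine (Finset.sum_le_sum h2).trans ?_
    rw [Finset.sum_add_distrib, h3, zero_add, Finset.sum_add_distrib, Finset.sum_add_distrib,
      ← Finset.mul_sum, ← Finset.mul_sum, ← Finset.mul_sum, Finset.sum_add_distrib]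
    have a0 := h4 (e 0)
    have a1 := h4 (e 1)
    have a2 := h4 (e 2)
    have a3 := h4 (e 3)
    gcongr
  exact_mod_cast h5

theorem ge_poly (P : Place k E) {x : E} (hx : P.Ge 0 x) (A : Polynomial k) :
    P.Ge 0 (Polynomial.aeval x A) := by
  rw [Polynomial.aeval_eq_sum_range]
  refine Place.Ge.sum fun i _ => ?_
  refine Place.Ge.smul ?_ _
  have := hx.pow i
  rwa [mul_zero] at this

theorem sub_poly (P : Place k E) {x : E} {c : k} (hx : P.Ge 1 (x - algebraMap k E c))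
    (A : Polynomial k) : P.Ge 1 (Polynomial.aeval x A - algebraMap k E (A.eval c)) := by
  obtain ⟨r, hr⟩ := Polynomial.X_sub_C_dvd_sub_C_eval (a := c) (p := A)
  have h1 : Polynomial.aeval x A - algebraMap k E (A.eval c) =
      (x - algebraMap k E c) * Polynomial.aeval x r := by
    have h2 := congrArg (Polynomial.aeval x) hr
    rw [map_sub, map_mul, map_sub, Polynomial.aeval_C, Polynomial.aeval_X,
      Polynomial.aeval_C] at h2
    exact h2
  rw [h1]
  exact hx.mul' (ge_poly P (P.ge_zero_of_res hx) r) (by norm_num)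

/-- the number of the poles of a rational function -/
theorem card_mul_ht_le {x : E} (hx : Transcendental k x) (A B : Polynomial k) (hB : B ≠ 0)
    (hAB : IsCoprime A B) (s : Finset k) (hs : ∀ c ∈ s, B.IsRoot c) :
    s.card * ht k x ≤ ht k (Polynomial.aeval x A / Polynomial.aeval x B) := by
  classical
  have hne : ∀ Q : Polynomial k, Q ≠ 0 → Polynomial.aeval x Q ≠ 0 := by
    intro Q hQ h
    exact hQ (transcendental_iff.1 hx Q h)
  have hBx := hne B hB
  choose Z hZ1 hZ2 using fun c : k => exists_zeros_sub hx c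
  have hdis : (s : Set k).PairwiseDisjoint Z := by
    intro c _ c' _ hcc
    rw [Function.onFun, Finset.disjoint_left]
    intro P hP hP'
    exact hcc (P.res_unique ((hZ1 c P).1 hP) ((hZ1 c' P).1 hP'))
  have h1 : ∀ c ∈ s, ∀ P ∈ Z c, P.ord (x - algebraMap k E c) ≤
      max 0 (-P.ord (Polynomial.aeval x A / Polynomial.aeval x B)) := by
    intro c hc P hP
    have hPc := (hZ1 c P).1 hP
    have hx0 := P.ge_zero_of_res hPc
    have hAc : A.eval c ≠ 0 := by
      obtain ⟨p, q, hpq⟩ := hAB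
      intro h
      have h2 := congrArg (Polynomial.eval c) hpq
      rw [Polynomial.eval_add, Polynomial.eval_mul, Polynomial.eval_mul, h, mul_zero,
        (hs c hc : B.eval c = 0), mul_zero, add_zero, Polynomial.eval_one] at h2
      exact zero_ne_one h2
    have hA0 : A ≠ 0 := by
      rintro rfl
      exact hAc (Polynomial.eval_zero)
    have hAx := hne A hA0
    have hordA : P.ord (Polynomial.aeval x A) ≤ 0 := by
      by_contra h
      push Not at h
      have h2 : P.Ge 1 (Polynomial.aeval x A) := (P.ge_iff hAx).2 (by omega)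
      have h3 := h2.sub (sub_poly P hPc A)
      rw [sub_sub_cancel] at h3
      exact P.not_ge_one_const hAc h3
    obtain ⟨B₁, hB₁⟩ := Polynomial.dvd_iff_isRoot.2 (hs c hc)
    have hB₁0 : B₁ ≠ 0 := by
      rintro rfl
      rw [mul_zero] at hB₁
      exact hB hB₁
    have hxc : x - algebraMap k E c ≠ 0 := by
      have := hne (Polynomial.X - Polynomial.C c) (Polynomial.X_sub_C_ne_zero c)
      rwa [map_sub, Polynomial.aeval_X, Polynomial.aeval_C] at this
    have hordB : P.ord (x - algebraMap k E c) ≤ P.ord (Polynomial.aeval x B) := by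
      rw [hB₁, map_mul, map_sub, Polynomial.aeval_X, Polynomial.aeval_C,
        P.ord_mul hxc (hne B₁ hB₁0)]
      have h4 := (P.ge_iff (hne B₁ hB₁0)).1 (ge_poly P hx0 B₁)
      omega
    rw [P.ord_div hAx hBx]
    refine le_max_of_le_right ?_
    omega
  have h2 : ((s.card * ht k x : ℕ) : ℤ) ≤
      (ht k (Polynomial.aeval x A / Polynomial.aeval x B) : ℤ) := by
    calc ((s.card * ht k x : ℕ) : ℤ)
        = ∑ c ∈ s, ∑ P ∈ Z c, P.ord (x - algebraMap k E c) := by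
          rw [Finset.sum_congr rfl fun c _ => hZ2 c, Finset.sum_const, nsmul_eq_mul]
          push_cast
          ring
      _ ≤ ∑ c ∈ s, ∑ P ∈ Z c, max 0 (-P.ord (Polynomial.aeval x A / Polynomial.aeval x B)) :=
          Finset.sum_le_sum fun c hc => Finset.sum_le_sum fun P hP => h1 c hc P hP
      _ = ∑ P ∈ s.biUnion Z, max 0 (-P.ord (Polynomial.aeval x A / Polynomial.aeval x B)) :=
          (Finset.sum_biUnion hdis).symm
      _ ≤ _ := sum_poles_le _ _
  exact_mod_cast h2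

end places

theorem count_ineq (q' N₁ N₂ d₁ d₂ n s s' : ℕ) (hq' : 64 ≤ q') (h1 : 2 * q' * d₁ ≤ (q' + 2) * N₁)
    (h2 : q' * d₂ ≤ N₂) (hn : 0 < n) (hN₁ : 0 < N₁) (hN₂ : 0 < N₂) (hs : n ≤ s + s')
    (hs' : q' * s' ≤ n) :
    (4 * (d₁ * N₂ + d₂ * N₁) + N₁ * N₂) * n < 4 * (N₁ * N₂) * s := by
  obtain ⟨p, hp⟩ : ∃ p, p = N₁ * N₂ * n := ⟨_, rfl⟩
  have hp0 : 0 < p := by rw [hp]; positivity
  have a1 : q' * ((4 * (d₁ * N₂ + d₂ * N₁) + N₁ * N₂) * n) ≤ (3 * q' + 8) * p := by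
    calc q' * ((4 * (d₁ * N₂ + d₂ * N₁) + N₁ * N₂) * n)
        = (2 * (2 * q' * d₁) * N₂ + 4 * (q' * d₂) * N₁ + q' * (N₁ * N₂)) * n := by ring
      _ ≤ (2 * ((q' + 2) * N₁) * N₂ + 4 * N₂ * N₁ + q' * (N₁ * N₂)) * n := by gcongr
      _ = (3 * q' + 8) * p := by rw [hp]; ring
  have a2 : (3 * q' + 8) * p + 4 * p < 4 * q' * p := by
    have : (3 * q' + 8) * p + 4 * p = (3 * q' + 12) * p := by ring
    rw [this]
    exact Nat.mul_lt_mul_of_pos_right (by omega) hp0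
  have a3 : 4 * q' * p ≤ q' * (4 * (N₁ * N₂) * s) + 4 * p := by
    calc 4 * q' * p = 4 * (N₁ * N₂) * (q' * n) := by rw [hp]; ring
      _ ≤ 4 * (N₁ * N₂) * (q' * (s + s')) := by gcongr
      _ = q' * (4 * (N₁ * N₂) * s) + 4 * (N₁ * N₂) * (q' * s') := by ring
      _ ≤ q' * (4 * (N₁ * N₂) * s) + 4 * (N₁ * N₂) * n := by gcongr
      _ = q' * (4 * (N₁ * N₂) * s) + 4 * p := by rw [hp]; ring
  have a4 : q' * ((4 * (d₁ * N₂ + d₂ * N₁) + N₁ * N₂) * n) < q' * (4 * (N₁ * N₂) * s) := by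
    omega
  exact Nat.lt_of_mul_lt_mul_left a4

theorem small_ineq (q q' M N₁ N₂ d₁ d₂ n h hx hz hθ hΛ H : ℕ) (hq : q' = 64 * q)
    (h1 : q' * d₁ ≤ N₁) (h2 : q' * d₂ ≤ N₂) (h3 : N₁ * hx ≤ n + 8 * h) (h4 : N₂ * hz ≤ n + 8 * h)
    (h5 : hθ ≤ 4 * h) (h6 : hΛ ≤ 19 * h) (h7 : 4 * (16 + 23 * q' * M) * h ≤ 4 * n)
    (hH : H ≤ d₁ * hx + d₂ * hz + M * (hθ + hΛ)) : q * H ≤ n := by
  have a1 : q' * H ≤ 3 * n := by
    calc q' * H ≤ q' * (d₁ * hx + d₂ * hz + M * (hθ + hΛ)) := by gcongr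
      _ = (q' * d₁) * hx + (q' * d₂) * hz + q' * M * (hθ + hΛ) := by ring
      _ ≤ N₁ * hx + N₂ * hz + q' * M * (4 * h + 19 * h) := by gcongr
      _ ≤ (n + 8 * h) + (n + 8 * h) + q' * M * (4 * h + 19 * h) := by gcongr
      _ = 2 * n + (16 + 23 * q' * M) * h := by ring
      _ ≤ 3 * n := by
          have : 4 * ((16 + 23 * q' * M) * h) ≤ 4 * n := by
            rw [← mul_assoc]; exact h7
          omega
  rw [hq, mul_assoc] at a1
  omega

/-- TSX -/
theorem tsx (nod : NodStmt.{u}) (cta : CtaStmt.{u}) (ctb : CtbStmt.{u}) (val : ValStmt.{u})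
    (pri : PriStmt.{u}) (rmn : RmnStmt.{u}) : TsxStmt.{u} := by
  classical
  intro q hq
  obtain ⟨q', hq'⟩ : ∃ q', q' = 64 * q := ⟨_, rfl⟩
  obtain ⟨M, hM⟩ : ∃ M, M = 2 * q' ^ 2 + 1 := ⟨_, rfl⟩
  obtain ⟨n1, h1⟩ := rmn q' (by omega)
  obtain ⟨n2, h2⟩ := ctb M 4 (by omega)
  refine ⟨n1 + n2 + 32 + 4 * (16 + 23 * q' * M), ?_⟩
  intro k _ _ _ N₁ N₂ a b hN₁ hN₂ ha hb T
  obtain ⟨R, hR, hRQ, hR3, hRm⟩ := h1 a b (by omega) (by omega) ha hb T
  obtain ⟨A, B, hA, hB, hB0, hAB⟩ := exists_AB (N := N₁) (by omega) a (slope a) ha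
  obtain ⟨A', B', hA', hB', hB'0, hAB'⟩ := exists_AB (N := N₂) (by omega) b (slope b) hb
  obtain ⟨A₁, B₁, g, hg, hB₁, hco, hAe, hBe⟩ := exists_coprime A B hB0
  obtain ⟨A₁', B₁', g', hg', hB₁', hco', hAe', hBe'⟩ := exists_coprime A' B' hB'0
  refine ⟨-A₁, B₁, -A₁', B₁', B₁.roots.toFinset, B₁'.roots.toFinset, hB₁, hB₁', ?_, ?_, ?_⟩
  · intro c
    rw [Multiset.mem_toFinset, Polynomial.mem_roots hB₁]
  · intro c
    rw [Multiset.mem_toFinset, Polynomial.mem_roots hB₁']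
  filter_upwards [hRm, (pri a b T).2.2 _ hR3] with i hi1 hi2
  obtain ⟨C, hC⟩ : ∃ C, C = T.C i := ⟨_, rfl⟩
  rw [← hC] at hi1 hi2 ⊢
  obtain ⟨hfin, hh0, hx, hz, hN, hth, hla, -, -, hconst, hth0⟩ := nod a b ha hb C
  have hn0 : 0 < C.n := by
    have := hN 32 le_rfl (by omega) (by omega)
    omega
  have hN7 : 4 * (16 + 23 * q' * M) * C.h ≤ 4 * C.n := by
    refine le_trans ?_ (hN (4 * (16 + 23 * q' * M)) (by omega) (by omega) (by omega))
    exact le_rfl
  -- the good places with a line in `R = 0`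
  obtain ⟨S, hS⟩ : ∃ S : Set (Place k C.E), S = {P | ∃ l j, C.Nd l j P ∧ ln a b l j R = 0} :=
    ⟨_, rfl⟩
  have hSn : S ⊆ C.nodes := by
    rw [hS]
    rintro P ⟨l, j, h, -⟩
    exact ⟨l, j, h⟩
  have hcard : C.n ≤ S.ncard + {P | ∃ l j, C.Nd l j P ∧ ln a b l j R ≠ 0}.ncard := by
    have hS' : {P | ∃ l j, C.Nd l j P ∧ ln a b l j R ≠ 0} ⊆ C.nodes := by
      rintro P ⟨l, j, h, -⟩
      exact ⟨l, j, h⟩
    have hun : C.nodes ⊆ S ∪ {P | ∃ l j, C.Nd l j P ∧ ln a b l j R ≠ 0} := by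
      rintro P ⟨l, j, h⟩
      by_cases h0 : ln a b l j R = 0
      · left
        rw [hS]
        exact ⟨l, j, h, h0⟩
      · right
        exact ⟨l, j, h, h0⟩
    exact (Set.ncard_le_ncard hun ((hfin.subset hSn).union (hfin.subset hS'))).trans
      (Set.ncard_union_le _ _)
  have hvan : ∀ Q : P4 k, (∀ l j, ln a b l j R = 0 → ln a b l j Q = 0) →
      ∀ P ∈ S, P.Ge 1 (C.ev Q) := by
    intro Q hQ P hP
    rw [hS] at hP
    obtain ⟨l, j, h, h0⟩ := hP
    obtain ⟨τ, -, -, h3, -⟩ := val a b ha hb C l j P h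
    apply h3
    rw [hQ l j h0, Polynomial.eval_zero]
  have hR3Q := pderiv_mem hRQ 3
  have hR2Q := pderiv_mem hRQ 2
  have hq0 : 0 < q' := by omega
  have hd1 : q' * (N₁ / q') ≤ N₁ := Nat.mul_div_le _ _
  have hd2 : q' * (N₂ / q') ≤ N₂ := Nat.mul_div_le _ _
  have hd1' : 2 * q' * (N₁ / 2 + N₁ / q') ≤ (q' + 2) * N₁ := by
    have h3 : 2 * (N₁ / 2) ≤ N₁ := Nat.mul_div_le _ _
    calc 2 * q' * (N₁ / 2 + N₁ / q') = q' * (2 * (N₁ / 2)) + 2 * (q' * (N₁ / q')) := by ring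
      _ ≤ q' * N₁ + 2 * N₁ := by gcongr
      _ = (q' + 2) * N₁ := by ring
  have hd2' : 2 * q' * (N₂ / 2 + N₂ / q') ≤ (q' + 2) * N₂ := by
    have h3 : 2 * (N₂ / 2) ≤ N₂ := Nat.mul_div_le _ _
    calc 2 * q' * (N₂ / 2 + N₂ / q') = q' * (2 * (N₂ / 2)) + 2 * (q' * (N₂ / q')) := by ring
      _ ≤ q' * N₂ + 2 * N₂ := by gcongr
      _ = (q' + 2) * N₂ := by ring
  -- the first polynomial
  have hQ1 : C.ev (Polynomial.aeval (X 0 : P4 k) A * pderiv 3 R +
      Polynomial.aeval (X 0 : P4 k) B * pderiv 2 R) = 0 := by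
    refine h2 a b (by omega) (by omega) ha hb C (N₁ / 2 + N₁ / q') (N₂ / q') M le_rfl _ ?_ S hSn
      (hvan _ ?_) ?_
    · refine Submodule.add_mem _ ?_ ?_
      · exact Qd_mono le_rfl (by omega) (by omega) (mul_mem (aeval0_mem A _ hA) hR3Q)
      · exact Qd_mono le_rfl (by omega) (by omega) (mul_mem (aeval0_mem B _ hB) hR2Q)
    · intro l j h0
      rw [map_add, map_mul, map_mul, ln_aeval0, ln_aeval0, ln_pderiv a b l j h0, ← mul_assoc,
        ← add_mul, ← Polynomial.C_mul, ← Polynomial.C_add]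
      have h3 := hAB l
      rw [mul_comm (Polynomial.eval (a l) B), h3, Polynomial.C_0, zero_mul]
    · exact count_ineq q' N₁ N₂ _ _ C.n _ _ (by omega) hd1' hd2 hn0 (by omega) (by omega)
        hcard hi1
  -- the second polynomial
  have hR4Q : X 3 * pderiv 3 R + X 2 * pderiv 2 R ∈ Qd k (N₁ / q') (N₂ / q') M := by
    refine Submodule.add_mem _ ?_ ?_
    · exact Qd_mono (by omega) (by omega) (by omega) (mul_mem X3_mem hR3Q)
    · exact Qd_mono (by omega) (by omega) (by omega) (mul_mem X2_mem hR2Q)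
  have hQ2 : C.ev (Polynomial.aeval (X 1 : P4 k) A' * pderiv 3 R +
      Polynomial.aeval (X 1 : P4 k) B' * (X 3 * pderiv 3 R + X 2 * pderiv 2 R)) = 0 := by
    refine h2 a b (by omega) (by omega) ha hb C (N₁ / q') (N₂ / 2 + N₂ / q') M le_rfl _ ?_ S hSn
      (hvan _ ?_) ?_
    · refine Submodule.add_mem _ ?_ ?_
      · exact Qd_mono (by omega) le_rfl (by omega) (mul_mem (aeval1_mem A' _ hA') hR3Q)
      · exact Qd_mono (by omega) le_rfl (by omega) (mul_mem (aeval1_mem B' _ hB') hR4Q)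
    · intro l j h0
      have h3 := hAB' j
      have h4 : Polynomial.C (A'.eval (b j)) +
          Polynomial.C (slope b j) * Polynomial.C (B'.eval (b j)) = 0 := by
        rw [← Polynomial.C_mul, ← Polynomial.C_add, h3, Polynomial.C_0]
      rw [map_add, map_mul, map_mul, map_add, map_mul, map_mul, ln_aeval1, ln_aeval1,
        ln_pderiv a b l j h0, ln_X3, ln_X2]
      linear_combination h4 * ln a b l j (pderiv 3 R)
    · have h5 := count_ineq q' N₂ N₁ _ _ C.n _ _ (by omega) hd2' hd1 hn0 (by omega) (by omega)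
        hcard hi1
      have e1 : N₁ / q' * N₂ + (N₂ / 2 + N₂ / q') * N₁ =
          (N₂ / 2 + N₂ / q') * N₁ + N₁ / q' * N₂ := add_comm _ _
      rw [e1, mul_comm N₁ N₂]
      exact h5
  -- evaluation
  have hxt : Transcendental k C.x := by
    by_contra h
    obtain ⟨c, hc⟩ := not_transcendental h
    exact (hconst c).1 hc
  have hzt : Transcendental k C.z := by
    by_contra h
    obtain ⟨c, hc⟩ := not_transcendental h
    exact (hconst c).2 hc
  have hevX0 : ∀ A : Polynomial k, C.ev (Polynomial.aeval (X 0 : P4 k) A) =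
      Polynomial.aeval C.x A := by
    intro A
    unfold BC.ev
    rw [← Polynomial.aeval_algHom_apply, aeval_X]
    rfl
  have hevX1 : ∀ A : Polynomial k, C.ev (Polynomial.aeval (X 1 : P4 k) A) =
      Polynomial.aeval C.z A := by
    intro A
    unfold BC.ev
    rw [← Polynomial.aeval_algHom_apply, aeval_X]
    rfl
  have hevX2 : C.ev (X 2) = C.th := by
    unfold BC.ev
    rw [aeval_X]
    rfl
  have hevX3 : C.ev (X 3) = C.la := by
    unfold BC.ev
    rw [aeval_X]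
    rfl
  have hevm : ∀ p r : P4 k, C.ev (p * r) = C.ev p * C.ev r := fun p r => by
    unfold BC.ev
    exact map_mul _ _ _
  have heva : ∀ p r : P4 k, C.ev (p + r) = C.ev p + C.ev r := fun p r => by
    unfold BC.ev
    exact map_add _ _ _
  have hBx : Polynomial.aeval C.x B₁ ≠ 0 := fun h => hB₁ (transcendental_iff.1 hxt _ h)
  have hBz : Polynomial.aeval C.z B₁' ≠ 0 := fun h => hB₁' (transcendental_iff.1 hzt _ h)
  have hgx : Polynomial.aeval C.x g ≠ 0 := fun h => hg (transcendental_iff.1 hxt _ h)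
  have hgz : Polynomial.aeval C.z g' ≠ 0 := fun h => hg' (transcendental_iff.1 hzt _ h)
  have hy1 : C.ev (pderiv 2 R) / C.ev (pderiv 3 R) =
      Polynomial.aeval C.x (-A₁) / Polynomial.aeval C.x B₁ := by
    rw [heva, hevm, hevm, hevX0, hevX0, hAe, hBe, map_mul, map_mul] at hQ1
    rw [div_eq_div_iff hi2 hBx, map_neg]
    apply mul_left_cancel₀ hgx
    linear_combination hQ1
  have hy2 : C.ev (X 3 * pderiv 3 R + X 2 * pderiv 2 R) / C.ev (pderiv 3 R) =
      Polynomial.aeval C.z (-A₁') / Polynomial.aeval C.z B₁' := by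
    rw [heva, hevm, hevm, hevX1, hevX1, hAe', hBe', map_mul, map_mul] at hQ2
    rw [div_eq_div_iff hi2 hBz, map_neg]
    apply mul_left_cancel₀ hgz
    linear_combination hQ2
  have hpt : C.pt 0 = C.x ∧ C.pt 1 = C.z ∧ C.pt 2 = C.th ∧ C.pt 3 = C.la := ⟨rfl, rfl, rfl, rfl⟩
  refine ⟨?_, ?_, ?_⟩
  · rw [← hy1, ← hy2, heva, hevm, hevm, hevX2, hevX3]
    field_simp
    ring
  · have h3 := card_mul_ht_le hxt (-A₁) B₁ hB₁ hco.neg_left B₁.roots.toFinset (fun c hc => by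
      rw [Multiset.mem_toFinset, Polynomial.mem_roots hB₁] at hc
      exact hc)
    have h4 := ht_div_le C.pt (N₁ / q') (N₂ / q') M (C.ev (pderiv 2 R)) (C.ev (pderiv 3 R)) hi2
      (cta C.pt _ _ _ _ (Qd_mono le_rfl le_rfl (by omega) hR2Q)).1
      (cta C.pt _ _ _ _ (Qd_mono le_rfl le_rfl (by omega) hR3Q)).1
    rw [hy1, hpt.1, hpt.2.1, hpt.2.2.1, hpt.2.2.2] at h4
    rw [mul_assoc]
    exact small_ineq q q' M N₁ N₂ _ _ C.n C.h _ _ _ _ _ hq' hd1 hd2 hx hz hth hla hN7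
      (h3.trans h4)
  · have h3 := card_mul_ht_le hzt (-A₁') B₁' hB₁' hco'.neg_left B₁'.roots.toFinset (fun c hc => by
      rw [Multiset.mem_toFinset, Polynomial.mem_roots hB₁'] at hc
      exact hc)
    have h4 := ht_div_le C.pt (N₁ / q') (N₂ / q') M
      (C.ev (X 3 * pderiv 3 R + X 2 * pderiv 2 R)) (C.ev (pderiv 3 R)) hi2
      (cta C.pt _ _ _ _ hR4Q).1
      (cta C.pt _ _ _ _ (Qd_mono le_rfl le_rfl (by omega) hR3Q)).1
    rw [hy2, hpt.1, hpt.2.1, hpt.2.2.1, hpt.2.2.2] at h4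
    rw [mul_assoc]
    exact small_ineq q q' M N₁ N₂ _ _ C.n C.h _ _ _ _ _ hq' hd1 hd2 hx hz hth hla hN7
      (h3.trans h4)

end Pool.Agent.PPZ.H27
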