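import Pool.Agent.Helper3_PPZ.Stmts

/-!
# Squad PPZ, module TSX: algebraic part
-/

set_option autoImplicit false

universe u

namespace Pool.Agent.PPZ.H27

open MvPolynomial PGH PPX Pool.Agent.PPZ

section alg

variable {k : Type u} [Field k]

theorem mem_Qd {d₁ d₂ M : ℕ} {Q : P4 k} : Q ∈ Qd k d₁ d₂ M ↔
    degreeOf 0 Q ≤ d₁ ∧ degreeOf 1 Q ≤ d₂ ∧ degreeOf 2 Q ≤ M ∧ degreeOf 3 Q ≤ M := by
  unfold Qd box
  rw [mem_restrictSupport_iff]
  simp only [degreeOf_le_iff]
  constructor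
  · intro h
    exact ⟨fun s hs => h hs 0, fun s hs => h hs 1, fun s hs => h hs 2, fun s hs => h hs 3⟩
  · rintro ⟨h0, h1, h2, h3⟩ s hs v
    fin_cases v
    · exact h0 s hs
    · exact h1 s hs
    · exact h2 s hs
    · exact h3 s hs

theorem degreeOf_pderiv_le (v i : Fin 4) (Q : P4 k) : degreeOf v (pderiv i Q) ≤ degreeOf v Q := by
  rw [degreeOf_le_iff]
  intro m hm
  rw [mem_support_iff, coeff_pderiv] at hm
  have h1 : m + Finsupp.single i 1 ∈ Q.support := by
    rw [mem_support_iff]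
    intro h
    rw [h] at hm
    simp at hm
  have h2 := (degreeOf_le_iff.1 (le_refl (degreeOf v Q))) _ h1
  refine le_trans ?_ h2
  rw [Finsupp.add_apply]
  exact Nat.le_add_right _ _

theorem pderiv_mem {d₁ d₂ M : ℕ} {Q : P4 k} (hQ : Q ∈ Qd k d₁ d₂ M) (i : Fin 4) :
    pderiv i Q ∈ Qd k d₁ d₂ M := by
  rw [mem_Qd] at hQ ⊢
  exact ⟨(degreeOf_pderiv_le _ _ _).trans hQ.1, (degreeOf_pderiv_le _ _ _).trans hQ.2.1,
    (degreeOf_pderiv_le _ _ _).trans hQ.2.2.1, (degreeOf_pderiv_le _ _ _).trans hQ.2.2.2⟩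

theorem mul_mem {d₁ d₂ M d₁' d₂' M' : ℕ} {Q Q' : P4 k} (hQ : Q ∈ Qd k d₁ d₂ M)
    (hQ' : Q' ∈ Qd k d₁' d₂' M') : Q * Q' ∈ Qd k (d₁ + d₁') (d₂ + d₂') (M + M') := by
  rw [mem_Qd] at hQ hQ' ⊢
  exact ⟨(degreeOf_mul_le _ _ _).trans (add_le_add hQ.1 hQ'.1),
    (degreeOf_mul_le _ _ _).trans (add_le_add hQ.2.1 hQ'.2.1),
    (degreeOf_mul_le _ _ _).trans (add_le_add hQ.2.2.1 hQ'.2.2.1),
    (degreeOf_mul_le _ _ _).trans (add_le_add hQ.2.2.2 hQ'.2.2.2)⟩

theorem Qd_mono {d₁ d₂ M d₁' d₂' M' : ℕ} (h1 : d₁ ≤ d₁') (h2 : d₂ ≤ d₂') (h3 : M ≤ M') {Q : P4 k}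
    (hQ : Q ∈ Qd k d₁ d₂ M) : Q ∈ Qd k d₁' d₂' M' := by
  rw [mem_Qd] at hQ ⊢
  exact ⟨hQ.1.trans h1, hQ.2.1.trans h2, hQ.2.2.1.trans h3, hQ.2.2.2.trans h3⟩

theorem degreeOf_sum_le' {ι : Type*} (s : Finset ι) (f : ι → P4 k) (v : Fin 4) (n : ℕ)
    (h : ∀ i ∈ s, degreeOf v (f i) ≤ n) : degreeOf v (∑ i ∈ s, f i) ≤ n := by
  classical
  induction s using Finset.induction_on with
  | empty => simp
  | insert i s hi ih =>
    rw [Finset.sum_insert hi]
    refine (degreeOf_add_le _ _ _).trans (max_le (h i (Finset.mem_insert_self _ _)) ?_)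
    exact ih fun j hj => h j (Finset.mem_insert_of_mem hj)

theorem degreeOf_aeval_X (v w : Fin 4) (A : Polynomial k) (n : ℕ) (hA : A.natDegree ≤ n) :
    degreeOf v (Polynomial.aeval (X w : P4 k) A) ≤ if v = w then n else 0 := by
  rw [Polynomial.aeval_eq_sum_range]
  refine degreeOf_sum_le' _ _ _ _ fun i hi => ?_
  rw [smul_eq_C_mul]
  refine (degreeOf_C_mul_le _ _ _).trans ?_
  have hi' : i ≤ n := by
    have := Finset.mem_range.1 hi
    omega
  split_ifs with h
  · subst h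
    refine (degreeOf_pow_le _ _ _).trans ?_
    rw [degreeOf_X_self]
    omega
  · rw [degreeOf_X_pow_of_ne i h]

theorem aeval0_mem (A : Polynomial k) (n : ℕ) (hA : A.natDegree ≤ n) :
    Polynomial.aeval (X 0 : P4 k) A ∈ Qd k n 0 0 := by
  rw [mem_Qd]
  have h := fun v => degreeOf_aeval_X v 0 A n hA
  exact ⟨h 0, h 1, h 2, h 3⟩

theorem aeval1_mem (A : Polynomial k) (n : ℕ) (hA : A.natDegree ≤ n) :
    Polynomial.aeval (X 1 : P4 k) A ∈ Qd k 0 n 0 := by
  rw [mem_Qd]
  have h := fun v => degreeOf_aeval_X v 1 A n hA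
  exact ⟨h 0, h 1, h 2, h 3⟩

theorem X2_mem : (X 2 : P4 k) ∈ Qd k 0 0 1 := by
  rw [mem_Qd]
  refine ⟨?_, ?_, ?_, ?_⟩
  · rw [degreeOf_X_of_ne (by decide)]
  · rw [degreeOf_X_of_ne (by decide)]
  · rw [degreeOf_X_self]
  · rw [degreeOf_X_of_ne (by decide)]; omega

theorem X3_mem : (X 3 : P4 k) ∈ Qd k 0 0 1 := by
  rw [mem_Qd]
  refine ⟨?_, ?_, ?_, ?_⟩
  · rw [degreeOf_X_of_ne (by decide)]
  · rw [degreeOf_X_of_ne (by decide)]
  · rw [degreeOf_X_of_ne (by decide)]; omega
  · rw [degreeOf_X_self]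

variable {N₁ N₂ : ℕ} (a : Fin N₁ → k) (b : Fin N₂ → k) (i : Fin N₁) (j : Fin N₂)

theorem ln_X0 : ln a b i j (X 0) = Polynomial.C (a i) := by
  unfold ln lin
  rw [aeval_X]
  rfl

theorem ln_X1 : ln a b i j (X 1) = Polynomial.C (b j) := by
  unfold ln lin
  rw [aeval_X]
  rfl

theorem ln_X2 : ln a b i j (X 2) = Polynomial.X := by
  unfold ln lin
  rw [aeval_X]
  rfl

theorem ln_X3 : ln a b i j (X 3) =
    Polynomial.C (slope b j) - Polynomial.C (slope a i) * Polynomial.X := by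
  unfold ln lin
  rw [aeval_X]
  rfl

theorem ln_aeval0 (A : Polynomial k) :
    ln a b i j (Polynomial.aeval (X 0 : P4 k) A) = Polynomial.C (A.eval (a i)) := by
  rw [← Polynomial.aeval_algHom_apply, ln_X0, ← Polynomial.algebraMap_eq,
    Polynomial.aeval_algebraMap_apply, Polynomial.coe_aeval_eq_eval]

theorem ln_aeval1 (A : Polynomial k) :
    ln a b i j (Polynomial.aeval (X 1 : P4 k) A) = Polynomial.C (A.eval (b j)) := by
  rw [← Polynomial.aeval_algHom_apply, ln_X1, ← Polynomial.algebraMap_eq,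
    Polynomial.aeval_algebraMap_apply, Polynomial.coe_aeval_eq_eval]

/-- the derivative along the line -/
theorem derivative_ln (R : P4 k) : Polynomial.derivative (ln a b i j R) =
    ln a b i j (pderiv 2 R) - Polynomial.C (slope a i) * ln a b i j (pderiv 3 R) := by
  induction R using MvPolynomial.induction_on with
  | C c =>
    rw [pderiv_C, pderiv_C, map_zero, mul_zero, sub_zero]
    have : ln a b i j (C c) = Polynomial.C c := by
      rw [← algebraMap_eq, AlgHom.commutes]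
      rfl
    rw [this, Polynomial.derivative_C]
  | add p q hp hq =>
    rw [map_add, map_add, map_add, map_add, map_add, map_add, hp, hq]
    ring
  | mul_X p v hp =>
    rw [map_mul, Polynomial.derivative_mul, hp, Derivation.leibniz, Derivation.leibniz,
      map_add, map_add, smul_eq_mul, smul_eq_mul, smul_eq_mul, smul_eq_mul, map_mul, map_mul,
      map_mul, map_mul]
    fin_cases v
    · simp only [Fin.zero_eta, ln_X0, Polynomial.derivative_C]
      rw [pderiv_X_of_ne (by decide), pderiv_X_of_ne (by decide), map_zero]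
      ring
    · simp only [Fin.mk_one, ln_X1, Polynomial.derivative_C]
      rw [pderiv_X_of_ne (by decide), pderiv_X_of_ne (by decide), map_zero]
      ring
    · simp only [Fin.reduceFinMk, ln_X2, Polynomial.derivative_X]
      rw [pderiv_X_self, pderiv_X_of_ne (by decide), map_zero, map_one]
      ring
    · simp only [Fin.reduceFinMk, ln_X3, Polynomial.derivative_sub, Polynomial.derivative_C,
        Polynomial.derivative_mul, Polynomial.derivative_X]
      rw [pderiv_X_self, pderiv_X_of_ne (by decide), map_zero, map_one]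
      ring

theorem ln_pderiv {R : P4 k} (h : ln a b i j R = 0) :
    ln a b i j (pderiv 2 R) = Polynomial.C (slope a i) * ln a b i j (pderiv 3 R) := by
  have h1 := derivative_ln a b i j R
  rw [h, Polynomial.derivative_zero] at h1
  exact (sub_eq_zero.1 h1.symm)

/-- existence of the two polynomials -/
theorem exists_AB {N : ℕ} (hN : 0 < N) (a s : Fin N → k) (ha : Function.Injective a) :
    ∃ A B : Polynomial k, A.natDegree ≤ N / 2 ∧ B.natDegree ≤ N / 2 ∧ B ≠ 0 ∧
      ∀ i, A.eval (a i) + s i * B.eval (a i) = 0 := by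
  classical
  obtain ⟨m, hm⟩ : ∃ m, m = N / 2 := ⟨_, rfl⟩
  -- the polynomial with given coefficients
  let pol : (Fin (m + 1) → k) →ₗ[k] Polynomial k :=
    { toFun := fun u => ∑ j : Fin (m + 1), Polynomial.monomial (j : ℕ) (u j)
      map_add' := fun u w => by simp [Finset.sum_add_distrib]
      map_smul' := fun c u => by
        simp [Finset.smul_sum, Polynomial.smul_monomial] }
  have hpol : ∀ u, pol u = ∑ j : Fin (m + 1), Polynomial.monomial (j : ℕ) (u j) := fun u => rfl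
  have hdeg : ∀ u, (pol u).natDegree ≤ m := by
    intro u
    rw [hpol]
    refine Polynomial.natDegree_sum_le_of_forall_le _ _ fun j _ => ?_
    exact (Polynomial.natDegree_monomial_le _).trans (Nat.lt_succ_iff.1 j.2)
  have hinj : ∀ u, pol u = 0 → u = 0 := by
    intro u hu
    funext j
    have h1 : (pol u).coeff j = u j := by
      rw [hpol, Polynomial.finsetSum_coeff, Finset.sum_eq_single j]
      · rw [Polynomial.coeff_monomial, if_pos rfl]
      · intro l _ hl
        rw [Polynomial.coeff_monomial, if_neg]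
        intro h
        exact hl (Fin.ext h)
      · intro h
        exact absurd (Finset.mem_univ _) h
    rw [hu, Polynomial.coeff_zero] at h1
    exact h1.symm
  let Φ : ((Fin (m + 1) → k) × (Fin (m + 1) → k)) →ₗ[k] (Fin N → k) :=
    LinearMap.pi fun i => (Polynomial.leval (a i)).comp (pol.comp (LinearMap.fst k _ _)) +
      s i • (Polynomial.leval (a i)).comp (pol.comp (LinearMap.snd k _ _))
  have hΦ : ∀ u w i, Φ (u, w) i = (pol u).eval (a i) + s i * (pol w).eval (a i) :=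
    fun u w i => rfl
  have hker : LinearMap.ker Φ ≠ ⊥ := by
    apply LinearMap.ker_ne_bot_of_finrank_lt
    rw [Module.finrank_prod, Module.finrank_fin_fun, Module.finrank_fin_fun]
    omega
  obtain ⟨⟨u, w⟩, huw, hne⟩ := Submodule.exists_mem_ne_zero_of_ne_bot hker
  rw [LinearMap.mem_ker] at huw
  have h0 : ∀ i, (pol u).eval (a i) + s i * (pol w).eval (a i) = 0 := fun i => by
    rw [← hΦ, huw]
    rfl
  refine ⟨pol u, pol w, hm ▸ hdeg u, hm ▸ hdeg w, fun hB => hne ?_, h0⟩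
  have hw := hinj w hB
  have hA : pol u = 0 := by
    by_contra hA
    have h1 : ∀ i, (pol u).IsRoot (a i) := by
      intro i
      have := h0 i
      rw [hB, Polynomial.eval_zero, mul_zero, add_zero] at this
      exact this
    have h2 : (Finset.univ.image a).card ≤ (pol u).natDegree := by
      refine le_trans (Finset.card_le_card ?_) ((Multiset.toFinset_card_le _).trans
        (Polynomial.card_roots' (pol u)))
      intro c hc
      obtain ⟨i, -, rfl⟩ := Finset.mem_image.1 hc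
      rw [Multiset.mem_toFinset, Polynomial.mem_roots hA]
      exact h1 i
    rw [Finset.card_image_of_injective _ ha, Finset.card_univ, Fintype.card_fin] at h2
    have := hdeg u
    omega
  rw [hinj u hA, hw]
  rfl

/-- division by the greatest common divisor -/
theorem exists_coprime (A B : Polynomial k) (hB : B ≠ 0) : ∃ A₁ B₁ g : Polynomial k,
    g ≠ 0 ∧ B₁ ≠ 0 ∧ IsCoprime A₁ B₁ ∧ A = A₁ * g ∧ B = B₁ * g := by
  classical
  obtain ⟨g, hg⟩ : ∃ g, g = EuclideanDomain.gcd A B := ⟨_, rfl⟩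
  have hg0 : g ≠ 0 := by
    intro h
    rw [hg, EuclideanDomain.gcd_eq_zero_iff] at h
    exact hB h.2
  obtain ⟨A₁, hA₁⟩ : g ∣ A := hg ▸ EuclideanDomain.gcd_dvd_left A B
  obtain ⟨B₁, hB₁⟩ : g ∣ B := hg ▸ EuclideanDomain.gcd_dvd_right A B
  refine ⟨A₁, B₁, g, hg0, ?_, ?_, by rw [hA₁, mul_comm], by rw [hB₁, mul_comm]⟩
  · rintro rfl
    rw [mul_zero] at hB₁
    exact hB hB₁
  · refine ⟨EuclideanDomain.gcdA A B, EuclideanDomain.gcdB A B, ?_⟩
    have h := EuclideanDomain.gcd_eq_gcd_ab A B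
    rw [← hg] at h
    apply mul_left_cancel₀ hg0
    rw [mul_one]
    conv_rhs => rw [h, hA₁, hB₁]
    rw [← hA₁, ← hB₁]
    conv_lhs => rw [mul_add]
    rw [← mul_assoc, ← mul_assoc, mul_comm g, mul_comm g, mul_assoc, mul_assoc, ← hA₁, ← hB₁]
    ring

end alg

end Pool.Agent.PPZ.H27
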